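import Mathlib

/-!
# Improper abelian progressions of rank four have unbounded VC-dimension

In the abelian group `ZMod q × ℤ × ℤ` take the four elements `(a, 1, 0)`, `(1, 0, 1)`, `(0, 1, 0)`,
`(0, 0, 1)`.  A point `(θ, X, Y)` with `X`, `Y` close to the maximal possible values lies in the
progression iff `θ` lies in a set of the form `[N - M, N] a + [N - L, N]` where the lengths `M`,
`L` are at our disposal; so shattering reduces to finding `d` independent sets among the sets
`[0, M) a + [0, L)` in a cyclic group `ZMod q`, which is done by induction on `d`.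
-/

namespace Pool.Agent.Results.MP_19d06a_co.AbelianUnbounded

/-- The set system `S` shatters the finite set `Y`: every subset of `Y` is of the form `A ∩ Y`
with `A ∈ S`. -/
def Shatters {X : Type*} (S : Set (Set X)) (Y : Finset X) : Prop :=
  ∀ B : Set X, B ⊆ (Y : Set X) → ∃ A ∈ S, A ∩ (Y : Set X) = B

/-- The VC-dimension of a set system: the supremum of the sizes of the shattered finite sets. -/
noncomputable def VC {X : Type*} (S : Set (Set X)) : ℕ∞ :=
  ⨆ (Y : Finset X) (_ : Shatters S Y), (Y.card : ℕ∞)

/-- The family of left translates `g A` of a subset `A` of a group. -/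
def translates {G : Type*} [Group G] (A : Set G) : Set (Set G) :=
  {T | ∃ g : G, T = (fun x => g * x) '' A}

/-- The generalized progression `P(a, N)`: the values of the words in the letters `(i, true)`
(standing for `a i`) and `(i, false)` (standing for `(a i)⁻¹`) in which, for every `i`, the letters
`(i, true)` and `(i, false)` together occur at most `N i` times. -/
def P {G : Type*} [Group G] {k : ℕ} (a : Fin k → G) (N : Fin k → ℕ) : Set G :=
  {g | ∃ w : List (Fin k × Bool), (∀ i, w.countP (fun x => decide (x.1 = i)) ≤ N i) ∧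
    (w.map fun x => if x.2 = true then a x.1 else (a x.1)⁻¹).prod = g}

/-! ## Progressions in commutative groups -/

theorem mem_P_of {G : Type*} [CommGroup G] {k : ℕ} (a : Fin k → G) (N : Fin k → ℕ)
    (c : Fin k → ℤ) (hc : ∀ i, |c i| ≤ N i) : ∏ i, a i ^ (c i) ∈ P a N := by
  refine ⟨(List.finRange k).flatMap fun i => List.replicate (c i).natAbs (i, decide (0 ≤ c i)),
    ?_, ?_⟩
  · intro i
    rw [List.countP_flatMap, ← Fin.sum_univ_def]
    simp only [Function.comp_apply, List.countP_replicate, decide_eq_true_eq]
    rw [Finset.sum_ite_eq' Finset.univ i (fun j => (c j).natAbs)]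
    simp only [Finset.mem_univ, if_true]
    have := hc i
    rw [abs_le] at this
    omega
  · rw [List.map_flatMap, List.flatMap_def, List.prod_flatten, List.map_map, ← Fin.prod_univ_def]
    refine Finset.prod_congr rfl fun i _ => ?_
    simp only [Function.comp_apply, List.map_replicate, List.prod_replicate, decide_eq_true_eq]
    split_ifs with h
    · conv_rhs => rw [← Int.natAbs_of_nonneg h]
      rw [zpow_natCast]
    · have : c i = -((c i).natAbs : ℤ) := by omega
      conv_rhs => rw [this]
      rw [zpow_neg, zpow_natCast, inv_pow]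

theorem of_mem_P {G : Type*} [CommGroup G] {k : ℕ} (a : Fin k → G) (N : Fin k → ℕ) {g : G}
    (hg : g ∈ P a N) : ∃ c : Fin k → ℤ, (∀ i, |c i| ≤ N i) ∧ g = ∏ i, a i ^ (c i) := by
  obtain ⟨w, hw, rfl⟩ := hg
  suffices h : ∃ c : Fin k → ℤ, (∀ i, |c i| ≤ (w.countP (fun x => decide (x.1 = i)) : ℕ)) ∧
      (w.map fun x => if x.2 = true then a x.1 else (a x.1)⁻¹).prod = ∏ i, a i ^ (c i) by
    obtain ⟨c, hc, h⟩ := h
    exact ⟨c, fun i => (hc i).trans (by exact_mod_cast hw i), h⟩
  clear hw
  induction w with
  | nil => exact ⟨fun _ => 0, by simp, by simp⟩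
  | cons x w ih =>
    obtain ⟨c, hc, h⟩ := ih
    refine ⟨fun i => c i + if x.1 = i then (if x.2 = true then 1 else -1) else 0, ?_, ?_⟩
    · intro i
      have := hc i
      rw [List.countP_cons]
      simp only [decide_eq_true_eq]
      by_cases h1 : x.1 = i
      · simp only [if_pos h1]
        by_cases h2 : x.2 = true
        · simp only [if_pos h2]
          rw [abs_le] at this ⊢
          push_cast
          constructor <;> omega
        · simp only [if_neg h2]
          rw [abs_le] at this ⊢
          push_cast
          constructor <;> omega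
      · simp only [if_neg h1]
        simpa using this
    · rw [List.map_cons, List.prod_cons, h]
      simp only [zpow_add, Finset.prod_mul_distrib]
      rw [mul_comm]
      congr 1
      rw [Finset.prod_eq_single x.1]
      · simp only [if_true]
        split_ifs <;> simp
      · intro i _ hi
        rw [if_neg (Ne.symm hi), zpow_zero]
      · intro h; exact absurd (Finset.mem_univ _) h

/-! ## Independent boxes in a cyclic group -/

theorem emod_aux (K u r : ℤ) (q : ℕ) (hq : 0 < q) (hr : 0 ≤ r) (hrK : r < K) :
    (K * u + r) % ((q : ℤ) * K) = K * (u % q) + r := by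
  have hq' : (0 : ℤ) < q := by exact_mod_cast hq
  have h1 : K * u + r = (K * (u % q) + r) + ((q : ℤ) * K) * (u / q) := by
    have := Int.emod_add_mul_ediv u q
    linear_combination (-K) * this
  rw [h1, Int.add_mul_emod_self_left]
  apply Int.emod_eq_of_lt
  · have := Int.emod_nonneg u hq'.ne'
    nlinarith
  · have := Int.emod_lt_of_pos u hq'
    nlinarith

theorem indep (d : ℕ) : ∃ (q : ℕ) (a : ℤ) (M L : Fin d → ℕ) (x : (Fin d → Bool) → ℤ),
    0 < q ∧ IsCoprime a (q : ℤ) ∧
    ∀ I j, (∃ m : ℕ, m < M j ∧ (x I - a * m) % q < L j) ↔ I j = true := by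
  induction d with
  | zero => exact ⟨1, 0, Fin.elim0, Fin.elim0, fun _ => 0, one_pos,
    by rw [Nat.cast_one]; exact isCoprime_one_right, fun _ j => j.elim0⟩
  | succ d ih =>
    obtain ⟨q, a, M, L, x, hq, hcop, hx⟩ := ih
    have hq' : (0 : ℤ) < q := by exact_mod_cast hq
    set Mx : ℕ := ∑ j, M j with hMx
    have hM : ∀ j, M j ≤ Mx := fun j => Finset.single_le_sum (fun _ _ => Nat.zero_le _)
      (Finset.mem_univ j)
    set K : ℕ := q * (Mx + 2) with hK
    have hKlt : (Mx : ℤ) + q < K := by
      rw [hK]; push_cast; nlinarith [Int.natCast_nonneg Mx]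
    have hKpos : (0 : ℤ) < K := by linarith [Int.natCast_nonneg Mx]
    -- the element of the window hit by the new progression
    have hm : ∀ I : Fin d → Bool, ∃ m : ℕ, Mx ≤ m ∧ m < Mx + q ∧ (q : ℤ) ∣ x I - a * m := by
      intro I
      obtain ⟨u, v, huv⟩ := hcop
      have h0 := Int.emod_nonneg (u * x I - Mx) hq'.ne'
      have h1 := Int.emod_lt_of_pos (u * x I - Mx) hq'
      refine ⟨Mx + ((u * x I - Mx) % q).toNat, by omega, by omega, ?_⟩
      push_cast
      rw [Int.toNat_of_nonneg h0]
      have h2 := Int.emod_add_mul_ediv (u * x I - Mx) q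
      refine ⟨v * x I + a * ((u * x I - Mx) / q), ?_⟩
      linear_combination (-x I) * huv + (-a) * h2
    choose mI hmI1 hmI2 hmI3 using hm
    refine ⟨q * K, a * K + 1, Fin.snoc M (Mx + q), Fin.snoc (fun j => K * L j) 1,
      fun I => K * x (fun j => I j.castSucc) +
        (if I (Fin.last d) = true then (mI (fun j => I j.castSucc) : ℤ) else Mx + q), ?_, ?_, ?_⟩
    · have : 0 < K := by exact_mod_cast hKpos
      positivity
    · push_cast
      have h1 : IsCoprime (a * K + 1) (K : ℤ) := ⟨1, -a, by ring⟩
      have h2 : IsCoprime (a * K + 1) (q : ℤ) := by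
        refine h1.of_isCoprime_of_dvd_right ?_
        rw [hK]; push_cast; exact Dvd.intro _ rfl
      exact h2.mul_right h1
    · intro I j
      set J : Fin d → Bool := fun j => I j.castSucc with hJ
      set c : ℤ := (if I (Fin.last d) = true then (mI J : ℤ) else Mx + q) with hc
      have hc1 : (Mx : ℤ) ≤ c := by
        rw [hc]; split_ifs
        · exact_mod_cast hmI1 J
        · linarith
      have hc2 : c ≤ Mx + q := by
        rw [hc]; split_ifs
        · have := hmI2 J; omega
        · exact le_refl _
      change (∃ m : ℕ, m < (Fin.snoc M (Mx + q) : Fin (d + 1) → ℕ) j ∧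
        ((K : ℤ) * x J + c - (a * K + 1) * m) % ((q * K : ℕ) : ℤ) <
          ((Fin.snoc (fun j => K * L j) 1 : Fin (d + 1) → ℕ) j : ℕ)) ↔ I j = true
      refine Fin.lastCases ?_ (fun j => ?_) j
      · -- the new box
        rw [Fin.snoc_last, Fin.snoc_last]
        constructor
        · rintro ⟨m, hm, hlt⟩
          by_contra hI
          have hce : c = Mx + q := by rw [hc, if_neg hI]
          have h0 := Int.emod_nonneg ((K : ℤ) * x J + c - (a * K + 1) * m)
            (show ((q * K : ℕ) : ℤ) ≠ 0 by push_cast; positivity)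
          have h1 : ((K : ℤ) * x J + c - (a * K + 1) * m) % ((q * K : ℕ) : ℤ) = 0 := by
            rw [Nat.cast_one] at hlt; omega
          have h2 := Int.dvd_of_emod_eq_zero h1
          have h3 : (K : ℤ) ∣ (K : ℤ) * x J + c - (a * K + 1) * m := by
            refine dvd_trans ?_ h2
            push_cast; exact Dvd.intro_left _ rfl
          have h4 : (K : ℤ) ∣ c - m := by
            have : c - m = ((K : ℤ) * x J + c - (a * K + 1) * m) - K * (x J - a * m) := by ring
            rw [this]; exact dvd_sub h3 (Dvd.intro _ rfl)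
          have h5 := Int.le_of_dvd (by rw [hce]; push_cast at *; omega) h4
          omega
        · intro hI
          refine ⟨mI J, hmI2 J, ?_⟩
          have hce : c = mI J := by rw [hc, if_pos hI]
          rw [hce]
          obtain ⟨t, ht⟩ := hmI3 J
          have : (K : ℤ) * x J + mI J - (a * K + 1) * mI J = ((q * K : ℕ) : ℤ) * t := by
            push_cast
            linear_combination (K : ℤ) * ht
          rw [this, Int.mul_emod_right]
          norm_num
      · rw [Fin.snoc_castSucc, Fin.snoc_castSucc, ← show J j = I j.castSucc from rfl, ← hx J j]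
        refine exists_congr fun m => and_congr_right fun hm => ?_
        have hmc : (m : ℤ) ≤ c := by
          have := hM j
          have : (m : ℤ) < Mx := by exact_mod_cast lt_of_lt_of_le hm this
          linarith
        have h1 : (K : ℤ) * x J + c - (a * K + 1) * m = K * (x J - a * m) + (c - m) := by ring
        rw [h1]
        have h2 := emod_aux K (x J - a * m) (c - m) q hq (by linarith)
          (by have := Int.natCast_nonneg m; linarith)
        push_cast
        rw [h2]
        have hr0 : 0 ≤ c - m := by linarith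
        have hrK : c - m < K := by have := Int.natCast_nonneg m; linarith
        constructor
        · intro h
          by_contra hcon
          push Not at hcon
          nlinarith
        · intro h
          have : (x J - a * m) % q + 1 ≤ L j := by omega
          nlinarith

/-! ## The group -/

/-- The group `ZMod q × ℤ × ℤ`, written multiplicatively. -/
abbrev Gr (q : ℕ) : Type := Multiplicative (ZMod q × ℤ × ℤ)

/-- The four generators. -/
def gen (q : ℕ) (a : ℤ) : Fin 4 → Gr q :=
  ![Multiplicative.ofAdd ((a : ZMod q), 1, 0), Multiplicative.ofAdd (1, 0, 1),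
    Multiplicative.ofAdd (0, 1, 0), Multiplicative.ofAdd (0, 0, 1)]

theorem mem_P_gen (q : ℕ) (a : ℤ) (N : ℕ) (θ : ZMod q) (X Y : ℤ) :
    (Multiplicative.ofAdd (θ, X, Y) : Gr q) ∈ P (gen q a) (fun _ => N) ↔
      ∃ m n : ℤ, |m| ≤ N ∧ |n| ≤ N ∧ |X - m| ≤ N ∧ |Y - n| ≤ N ∧
        θ = ((a * m + n : ℤ) : ZMod q) := by
  constructor
  · intro h
    obtain ⟨c, hc, h⟩ := of_mem_P _ _ h
    rw [Fin.prod_univ_four] at h
    have h' := congrArg Multiplicative.toAdd h
    simp only [gen, toAdd_mul, toAdd_zpow, toAdd_ofAdd, Matrix.cons_val] at h'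
    simp only [Prod.smul_mk, Prod.mk_add_mk, Prod.mk.injEq, smul_eq_mul, mul_one, mul_zero,
      add_zero, zero_add, zsmul_eq_mul] at h'
    obtain ⟨h1, h2, h3⟩ := h'
    refine ⟨c 0, c 1, hc 0, hc 1, ?_, ?_, ?_⟩
    · have : X - c 0 = c 2 := by rw [h2]; ring
      rw [this]; exact hc 2
    · have : Y - c 1 = c 3 := by rw [h3]; ring
      rw [this]; exact hc 3
    · rw [h1]; push_cast; ring
  · rintro ⟨m, n, h1, h2, h3, h4, h5⟩
    have := mem_P_of (gen q a) (fun _ => N) ![m, n, X - m, Y - n] (by
      intro i
      fin_cases i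
      · exact h1
      · exact h2
      · exact h3
      · exact h4)
    convert this using 1
    rw [Fin.prod_univ_four]
    apply Multiplicative.toAdd.injective
    simp only [gen, toAdd_mul, toAdd_zpow, toAdd_ofAdd, Matrix.cons_val]
    simp only [Prod.smul_mk, Prod.mk_add_mk, Prod.mk.injEq, smul_eq_mul, mul_one, mul_zero,
      add_zero, zero_add, zsmul_eq_mul]
    refine ⟨?_, by ring, by ring⟩
    rw [h5]; push_cast; ring

theorem mem_translate_iff (q : ℕ) (hq : 0 < q) (a : ℤ) (N M L : ℕ) (hM : M ≤ N) (hL : L ≤ N)
    (x : ℤ) :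
    (Multiplicative.ofAdd (((a * N + N - x : ℤ) : ZMod q), (2 * N + 1 - M : ℤ),
      (2 * N + 1 - L : ℤ)) : Gr q) ∈ P (gen q a) (fun _ => N) ↔
      ∃ m : ℕ, m < M ∧ (x - a * m) % q < L := by
  have hq' : (0 : ℤ) < q := by exact_mod_cast hq
  rw [mem_P_gen]
  constructor
  · rintro ⟨m, n, h1, h2, h3, h4, h5⟩
    rw [abs_le] at h1 h2 h3 h4
    refine ⟨(N - m).toNat, by omega, ?_⟩
    rw [Int.toNat_of_nonneg (by omega)]
    rw [ZMod.intCast_eq_intCast_iff] at h5
    have h6 : (x - a * (N - m)) % q = (N - n) % q := by
      apply Int.ModEq.eq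
      have := (Int.ModEq.refl (a * N + N - a * (N - m))).sub h5
      have e1 : a * N + N - a * (N - m) - (a * N + N - x) = x - a * (N - m) := by ring
      have e2 : a * N + N - a * (N - m) - (a * m + n) = N - n := by ring
      rwa [e1, e2] at this
    rw [h6]
    have h7 := Int.emod_add_mul_ediv (N - n) q
    have h8 : 0 ≤ ((N : ℤ) - n) / q := Int.ediv_nonneg (by omega) hq'.le
    have h9 : 0 ≤ (q : ℤ) * (((N : ℤ) - n) / q) := mul_nonneg hq'.le h8
    omega
  · rintro ⟨m, hm, h⟩
    have h0 := Int.emod_nonneg (x - a * m) hq'.ne'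
    refine ⟨N - m, N - (x - a * m) % q, ?_, ?_, ?_, ?_, ?_⟩
    · rw [abs_le]; omega
    · rw [abs_le]; omega
    · rw [abs_le]; omega
    · rw [abs_le]; omega
    · rw [ZMod.intCast_eq_intCast_iff]
      have h1 : (x - a * m) % q ≡ x - a * m [ZMOD q] := Int.mod_modEq _ _
      have := (Int.ModEq.refl (a * (N - m) + N)).sub h1
      have e1 : a * (N - m) + N - (x - a * m) % q = a * (N - m) + (N - (x - a * m) % q) := by ring
      have e2 : a * (N - m) + N - (x - a * m) = a * N + N - x := by ring
      rw [e1, e2] at this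
      exact this.symm

/-- The progressions shatter arbitrarily large finite sets. -/
theorem exists_shattered (d : ℕ) : ∃ (q : ℕ) (a : ℤ) (N : ℕ) (Y : Finset (Gr q)),
    Shatters (translates (P (gen q a) (fun _ => N))) Y ∧ Y.card = d := by
  classical
  obtain ⟨q, a, M, L, x, hq, -, hx⟩ := indep d
  set N : ℕ := ∑ j, M j + ∑ j, L j with hN
  have hM : ∀ j, M j ≤ N := fun j =>
    (Finset.single_le_sum (fun _ _ => Nat.zero_le _) (Finset.mem_univ j)).trans
      (Nat.le_add_right _ _)
  have hL : ∀ j, L j ≤ N := fun j =>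
    (Finset.single_le_sum (fun _ _ => Nat.zero_le _) (Finset.mem_univ j)).trans
      (Nat.le_add_left _ _)
  set y : Fin d → Gr q := fun j =>
    Multiplicative.ofAdd (0, (2 * N + 1 - M j : ℤ), (2 * N + 1 - L j : ℤ)) with hy
  set g : (Fin d → Bool) → Gr q := fun I =>
    Multiplicative.ofAdd (((x I - (a * N + N) : ℤ) : ZMod q), 0, 0) with hg
  -- membership of the points in the translates
  have key : ∀ I j, y j ∈ (fun z => g I * z) '' P (gen q a) (fun _ => N) ↔ I j = true := by
    intro I j
    rw [← hx I j, ← mem_translate_iff q hq a N (M j) (L j) (hM j) (hL j) (x I)]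
    constructor
    · rintro ⟨z, hz, hzy⟩
      convert hz using 1
      have : z = (g I)⁻¹ * y j := by rw [← hzy]; group
      rw [this]
      apply Multiplicative.toAdd.injective
      simp only [hg, hy, toAdd_mul, toAdd_inv, toAdd_ofAdd]
      simp
    · intro hz
      refine ⟨_, hz, ?_⟩
      apply Multiplicative.toAdd.injective
      simp only [hg, hy, toAdd_mul, toAdd_ofAdd]
      simp
  have hinj : Function.Injective y := by
    intro i j hij
    have h1 := (key (fun k => decide (k = i)) i).2 (by simp)
    rw [hij] at h1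
    have h2 := (key (fun k => decide (k = i)) j).1 h1
    exact (by simpa using h2 : j = i).symm
  refine ⟨q, a, N, Finset.univ.image y, ?_, ?_⟩
  · intro B hB
    refine ⟨_, ⟨g (fun j => decide (y j ∈ B)), rfl⟩, ?_⟩
    ext z
    constructor
    · rintro ⟨h1, h2⟩
      rw [Finset.mem_coe, Finset.mem_image] at h2
      obtain ⟨j, -, rfl⟩ := h2
      simpa using (key _ j).1 h1
    · intro hz
      have h2 := hB hz
      refine ⟨?_, h2⟩
      rw [Finset.mem_coe, Finset.mem_image] at h2
      obtain ⟨j, -, rfl⟩ := h2
      exact (key _ j).2 (by simpa using hz)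
  · rw [Finset.card_image_of_injective _ hinj, Finset.card_univ, Fintype.card_fin]

/-- **The answer is negative, already for abelian groups and rank four.**  First part: for every
`C` there are an abelian group `G` and a generalized progression of rank `4` in `G` whose family of
translates has VC-dimension larger than `C`.  Second part: it is false that for all `k, s ≥ 1`
there is a constant `C` bounding the VC-dimension of the left translates of every generalized
progression of rank `k` in every nilpotent group of class at most `s`. -/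
theorem result :
    (∀ C : ℕ, ∃ (G : Type) (_ : CommGroup G) (a : Fin 4 → G) (N : Fin 4 → ℕ),
      (C : ℕ∞) < VC (translates (P a N))) ∧
    ¬ (∀ k s : ℕ, 1 ≤ k → 1 ≤ s → ∃ C : ℕ, ∀ (G : Type) [Group G] [Group.IsNilpotent G],
      Group.nilpotencyClass G ≤ s → ∀ (a : Fin k → G) (N : Fin k → ℕ),
        VC (translates (P a N)) ≤ C) := by
  have h1 : ∀ C : ℕ, ∃ (G : Type) (_ : CommGroup G) (a : Fin 4 → G) (N : Fin 4 → ℕ),
      (C : ℕ∞) < VC (translates (P a N)) := by
    intro C
    obtain ⟨q, a, N, Y, hY, hcard⟩ := exists_shattered (C + 1)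
    refine ⟨Gr q, inferInstance, gen q a, fun _ => N, ?_⟩
    have h2 : ((C + 1 : ℕ) : ℕ∞) ≤ VC (translates (P (gen q a) fun _ => N)) := by
      unfold VC
      rw [← hcard]
      exact le_iSup₂_of_le Y hY (le_refl _)
    refine lt_of_lt_of_le ?_ h2
    exact_mod_cast Nat.lt_succ_self C
  refine ⟨h1, fun h => ?_⟩
  obtain ⟨C, hC⟩ := h 4 1 (by norm_num) (le_refl _)
  obtain ⟨G, hG, a, N, hlt⟩ := h1 C
  exact absurd (hC G CommGroup.nilpotencyClass_le_one a N) (not_le.2 hlt)

end Pool.Agent.Results.MP_19d06a_co.AbelianUnbounded
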